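import Mathlib

namespace Pool.Agent.MP_57c6f5_nt

/-- `l = [x₁, …, x_s]` is a solution: `1 < x₁ < ⋯ < x_s` and `∑ 1/xᵢ + 1/(x₁ ⋯ x_s) = 1`. -/
def IsSol (l : List ℕ) : Prop :=
  l.Pairwise (fun x y => x < y) ∧ (∀ x ∈ l, 1 < x) ∧
    (l.map fun x : ℕ => (1 : ℚ) / (x : ℚ)).sum + 1 / ((l.prod : ℕ) : ℚ) = 1

/-- The number of solutions of length `s` that begin with the list `u`. -/
noncomputable def Omega (u : List ℕ) (s : ℕ) : ℕ :=
  Set.ncard {l : List ℕ | IsSol l ∧ l.length = s ∧ ∃ t : List ℕ, l = u ++ t}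

end Pool.Agent.MP_57c6f5_nt
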