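import Pool.Agent.MP_57c6f5_nt.Defs

set_option autoImplicit false

namespace Pool.Agent.MP_57c6f5_nt.G

/-! ### Finiteness -/

theorem sum_le (l : List ℕ) (x : ℕ) (hx : 0 < x) (h : ∀ y ∈ l, x ≤ y) :
    (l.map fun y : ℕ => (1 : ℚ) / (y : ℚ)).sum ≤ (l.length : ℚ) / x := by
  induction l with
  | nil => simp
  | cons a t ih =>
    have h1 : (x : ℚ) ≤ a := by exact_mod_cast h a (by simp)
    have hx' : (0 : ℚ) < x := by exact_mod_cast hx
    have h2 := ih (fun y hy => h y (by simp [hy]))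
    have h3 : (1 : ℚ) / a ≤ 1 / x := one_div_le_one_div_of_le hx' h1
    simp only [List.map_cons, List.sum_cons, List.length_cons]
    push_cast
    have : ((t.length : ℚ) + 1) / x = 1 / x + t.length / x := by ring
    linarith

theorem sum_nonneg' (l : List ℕ) : 0 ≤ (l.map fun y : ℕ => (1 : ℚ) / (y : ℚ)).sum := by
  apply List.sum_nonneg
  intro a ha
  obtain ⟨y, -, rfl⟩ := List.mem_map.1 ha
  positivity

theorem prod_pos' (l : List ℕ) (h : ∀ x ∈ l, 1 < x) : 0 < l.prod :=
  List.prod_pos (fun a ha => by have := h a ha; omega)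

theorem fin_aux (k : ℕ) : ∀ (r : ℚ) (N : ℕ), 0 < N →
    {l : List ℕ | l.length = k ∧ l.Pairwise (fun x y => x < y) ∧ (∀ x ∈ l, 1 < x) ∧
      (l.map fun x : ℕ => (1 : ℚ) / (x : ℚ)).sum + 1 / ((N * l.prod : ℕ) : ℚ) = r}.Finite := by
  induction k with
  | zero =>
    intro r N _
    refine (Set.finite_singleton ([] : List ℕ)).subset ?_
    rintro l ⟨h, -⟩
    simpa using h
  | succ k ih =>
    intro r N hN
    have hfin : (⋃ x ∈ Set.Icc 1 ⌈((k : ℚ) + 2) / r⌉₊, (fun t => x :: t) ''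
        {l : List ℕ | l.length = k ∧ l.Pairwise (fun x y => x < y) ∧ (∀ x ∈ l, 1 < x) ∧
          (l.map fun x : ℕ => (1 : ℚ) / (x : ℚ)).sum + 1 / (((N * x) * l.prod : ℕ) : ℚ)
            = r - 1 / (x : ℚ)}).Finite := by
      refine (Set.finite_Icc _ _).biUnion fun x hx => Set.Finite.image _ (ih _ _ ?_)
      exact Nat.mul_pos hN hx.1
    refine hfin.subset ?_
    rintro l ⟨hl, hp, h1, hs⟩
    match l, hl with
    | x :: t, hl =>
      have hx : 1 < x := h1 x (by simp)
      have hx' : (0 : ℚ) < x := by exact_mod_cast (by omega : 0 < x)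
      have ht : t.length = k := by simpa using hl
      have h1t : ∀ y ∈ t, 1 < y := fun y hy => h1 y (by simp [hy])
      rw [List.pairwise_cons] at hp
      have hle := sum_le t x (by omega) (fun y hy => (hp.1 y hy).le)
      have hpp := prod_pos' t h1t
      have h0 := sum_nonneg' t
      simp only [List.map_cons, List.sum_cons, List.prod_cons] at hs
      have hge : (x : ℚ) ≤ ((N * (x * t.prod) : ℕ) : ℚ) := by
        exact_mod_cast (by nlinarith [Nat.mul_pos hN hpp, Nat.mul_le_mul_left x (Nat.mul_pos hN hpp)] :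
          x ≤ N * (x * t.prod))
      have h3 : (1 : ℚ) / ((N * (x * t.prod) : ℕ) : ℚ) ≤ 1 / x := one_div_le_one_div_of_le hx' hge
      have h4 : (0 : ℚ) ≤ 1 / ((N * (x * t.prod) : ℕ) : ℚ) := by positivity
      have h5 : (0 : ℚ) < 1 / x := by positivity
      have hr : 0 < r := by linarith
      have h6 : r ≤ ((k : ℚ) + 2) / x := by
        rw [ht] at hle
        have : ((k : ℚ) + 2) / x = 1 / x + k / x + 1 / x := by ring
        linarith
      have h7 : (x : ℚ) ≤ ((k : ℚ) + 2) / r := by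
        rw [le_div_iff₀ hr]; rw [le_div_iff₀ hx'] at h6; linarith
      refine Set.mem_biUnion (x := x) ⟨by omega, ?_⟩ ⟨t, ⟨ht, hp.2, h1t, ?_⟩, rfl⟩
      · exact_mod_cast h7.trans (Nat.le_ceil _)
      · rw [mul_assoc]; linarith

theorem fin_sol (k : ℕ) : {l : List ℕ | IsSol l ∧ l.length = k}.Finite := by
  refine (fin_aux k 1 1 one_pos).subset ?_
  rintro l ⟨⟨a, b, c⟩, d⟩
  exact ⟨d, a, b, by simpa using c⟩

/-! ### States and steps -/

/-- `1 - ∑ 1/x = D / ∏ x`, with the size conditions that keep the list increasing. -/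
def St (l : List ℕ) (D : ℕ) : Prop :=
  l.Pairwise (fun x y => x < y) ∧ (∀ x ∈ l, 1 < x) ∧ (∀ x ∈ l, D * x ≤ l.prod) ∧ D ≤ l.prod ∧
    0 < D ∧ (l.map fun x : ℕ => (1 : ℚ) / (x : ℚ)).sum + (D : ℚ) / ((l.prod : ℕ) : ℚ) = 1

theorem st_one (l : List ℕ) : St l 1 ↔ IsSol l := by
  constructor
  · rintro ⟨a, b, -, -, -, c⟩
    exact ⟨a, b, by simpa using c⟩
  · rintro ⟨a, b, c⟩
    have hp := prod_pos' l b
    exact ⟨a, b, fun x hx => by simpa using Nat.le_of_dvd hp (List.dvd_prod hx), hp, one_pos,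
      by simpa using c⟩

/-- One step from `D` to `E`. -/
def stp (D E : ℕ) (l : List ℕ) : List ℕ := l ++ [(l.prod + E) / D]

theorem stp_prod (D E : ℕ) (l : List ℕ) :
    (stp D E l).prod = l.prod * ((l.prod + E) / D) := by simp [stp]

theorem st_stp {l : List ℕ} {D E : ℕ} (h : St l D) (hE : 0 < E) (hEl : E ≤ l.prod)
    (hd : D ∣ l.prod + E) : St (stp D E l) E := by
  obtain ⟨a, b, c, d, e, f⟩ := h
  obtain ⟨y, hy⟩ := hd
  have hyy : (l.prod + E) / D = y := by rw [hy]; exact Nat.mul_div_cancel_left y e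
  have hp := prod_pos' l b
  have hlt : ∀ x ∈ l, x < y := fun x hx => by
    have := c x hx
    have h2 : D * x < D * y := by omega
    exact lt_of_mul_lt_mul_left h2 (Nat.zero_le _)
  have hy1 : 1 < y := by
    have h2 : D * 1 < D * y := by omega
    exact lt_of_mul_lt_mul_left h2 (Nat.zero_le _)
  have hpr : (stp D E l).prod = l.prod * y := by rw [stp_prod, hyy]
  refine ⟨?_, ?_, ?_, ?_, hE, ?_⟩
  · simp only [stp, hyy, List.pairwise_append, List.pairwise_singleton, List.mem_singleton]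
    exact ⟨a, trivial, fun x hx z hz => hz ▸ hlt x hx⟩
  · intro x hx
    simp only [stp, hyy, List.mem_append, List.mem_singleton] at hx
    rcases hx with hx | rfl
    exacts [b x hx, hy1]
  · intro x hx
    rw [hpr]
    simp only [stp, hyy, List.mem_append, List.mem_singleton] at hx
    rcases hx with hx | rfl
    · exact Nat.mul_le_mul hEl (hlt x hx).le
    · exact Nat.mul_le_mul hEl le_rfl
  · rw [hpr]; nlinarith
  · rw [hpr]
    simp only [stp, hyy, List.map_append, List.sum_append, List.map_cons, List.map_nil,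
      List.sum_cons, List.sum_nil]
    have h1 : (0 : ℚ) < (l.prod : ℕ) := by exact_mod_cast hp
    have h2 : (0 : ℚ) < y := by exact_mod_cast (by omega : 0 < y)
    have h3 : ((l.prod : ℕ) : ℚ) + E = D * y := by exact_mod_cast hy
    have h4 : (1 : ℚ) / y + E / (((l.prod * y : ℕ)) : ℚ) = D / ((l.prod : ℕ) : ℚ) := by
      rw [Nat.cast_mul]; field_simp; linarith
    linarith

theorem stp_mod {N r D E m : ℕ} (hD : 0 < D) (h : N ≡ r [MOD D * m]) (hd : D ∣ r + E) :
    D ∣ N + E ∧ N * ((N + E) / D) ≡ r * ((r + E) / D) [MOD m] := by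
  have h1 : N + E ≡ r + E [MOD D * m] := h.add_right E
  have h2 : D ∣ N + E := by
    have := (h1.of_mul_right m)
    exact (this.dvd_iff (dvd_refl D)).2 hd
  refine ⟨h2, Nat.ModEq.mul (h.of_mul_left D) ?_⟩
  obtain ⟨a, ha⟩ := h2
  obtain ⟨b, hb⟩ := hd
  rw [ha, hb] at h1
  rw [ha, hb, Nat.mul_div_cancel_left _ hD, Nat.mul_div_cancel_left _ hD]
  exact Nat.ModEq.mul_left_cancel' hD.ne' h1

/-! ### The Sylvester step -/

def f (N : ℕ) : ℕ := N * N + N

def syl (l : List ℕ) : List ℕ := l ++ [l.prod + 1]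

theorem syl_eq (l : List ℕ) : syl l = stp 1 1 l := by simp [syl, stp]

theorem syl_prod (l : List ℕ) : (syl l).prod = f l.prod := by simp [syl, f]; ring

theorem syl_sol {l : List ℕ} (h : IsSol l) : IsSol (syl l) := by
  rw [syl_eq, ← st_one]
  exact st_stp ((st_one l).2 h) one_pos (prod_pos' l h.2.1) (one_dvd _)

theorem it_sol {l : List ℕ} (h : IsSol l) (k : ℕ) : IsSol (syl^[k] l) := by
  induction k with
  | zero => exact h
  | succ k ih => rw [Function.iterate_succ_apply']; exact syl_sol ih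

theorem it_prod (l : List ℕ) (k : ℕ) : (syl^[k] l).prod = f^[k] l.prod := by
  induction k with
  | zero => rfl
  | succ k ih => rw [Function.iterate_succ_apply', Function.iterate_succ_apply', syl_prod, ih]

theorem it_app (l : List ℕ) (k : ℕ) : ∃ t : List ℕ, syl^[k] l = l ++ t ∧ t.length = k := by
  induction k with
  | zero => exact ⟨[], by simp, rfl⟩
  | succ k ih =>
    obtain ⟨t, h1, h2⟩ := ih
    rw [Function.iterate_succ_apply']
    refine ⟨t ++ [(syl^[k] l).prod + 1], ?_, by simp [h2]⟩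
    rw [syl, ← List.append_assoc, ← h1]

/-! ### Congruences with regained precision -/

def big : ℕ := 1023165125
def cs : ℕ := 488895567

def nxt (p : ℕ × ℕ) : ℕ × ℕ :=
  let g := Nat.gcd (Nat.gcd p.2 (2 * p.1 + 1)) (big / p.2)
  ((p.1 * p.1 + p.1) % (p.2 * g), p.2 * g)

theorem f_lift {N r m g : ℕ} (h : N ≡ r [MOD m]) (h1 : g ∣ m) (h2 : g ∣ 2 * r + 1) :
    f N ≡ r * r + r [MOD m * g] := by
  have h3 : (m : ℤ) ∣ (r : ℤ) - N := h.dvd
  have h4 : (g : ℤ) ∣ (N : ℤ) + r + 1 := by
    have a : (g : ℤ) ∣ (r : ℤ) - N := (Int.natCast_dvd_natCast.2 h1).trans h3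
    have b : (g : ℤ) ∣ 2 * (r : ℤ) + 1 := by exact_mod_cast h2
    have := b.sub a
    rwa [show 2 * (r : ℤ) + 1 - ((r : ℤ) - N) = (N : ℤ) + r + 1 by ring] at this
  rw [Nat.modEq_iff_dvd]
  have := mul_dvd_mul h3 h4
  unfold f
  push_cast
  rwa [show ((r : ℤ) - N) * ((N : ℤ) + r + 1) = (r : ℤ) * r + r - ((N : ℤ) * N + N) by ring] at this

theorem nxt_mod {N : ℕ} {p : ℕ × ℕ} (h : N ≡ p.1 [MOD p.2]) : f N ≡ (nxt p).1 [MOD (nxt p).2] := by
  unfold nxt
  refine Nat.ModEq.trans (f_lift h ?_ ?_) (Nat.mod_modEq _ _).symm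
  · exact (Nat.gcd_dvd_left _ _).trans (Nat.gcd_dvd_left _ _)
  · exact (Nat.gcd_dvd_left _ _).trans (Nat.gcd_dvd_right _ _)

theorem it_mod (k : ℕ) : ∀ {N : ℕ} {p : ℕ × ℕ}, N ≡ p.1 [MOD p.2] →
    f^[k] N ≡ (nxt^[k] p).1 [MOD (nxt^[k] p).2] := by
  induction k with
  | zero => intro N p h; exact h
  | succ k ih => intro N p h; exact ih (nxt_mod h)

theorem c174 : nxt^[174] (cs, big) = (cs, big) := by decide +kernel
theorem c223 : nxt^[223] (11391, 14305) = (cs, big) := by decide +kernel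
theorem c1 : nxt^[33] (4291, 14305) = (cs, big) := by decide +kernel
theorem c2 : nxt^[120] (7152, 14305) = (cs, big) := by decide +kernel
theorem c3 : nxt^[33] (10013, 14305) = (cs, big) := by decide +kernel

theorem to_cs {N r m k : ℕ} (h : N ≡ r [MOD m]) (hk : nxt^[k] (r, m) = (cs, big)) :
    f^[k] N ≡ cs [MOD big] := by
  have := it_mod k (p := (r, m)) h
  rwa [hk] at this

/-- Does the orbit of `r` modulo 2861 meet the critical point within `k` steps. -/
def hit : ℕ → ℕ → Bool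
  | 0, r => r == 1430
  | k + 1, r => r == 1430 || hit k ((r * r + r) % 2861)

theorem hit_spec (k : ℕ) : ∀ N r : ℕ, N ≡ r [MOD 2861] → hit k r = true →
    ∃ t ≤ k, f^[t] N ≡ 1430 [MOD 2861] := by
  induction k with
  | zero =>
    intro N r h hh
    simp only [hit, beq_iff_eq] at hh
    exact ⟨0, le_rfl, hh ▸ h⟩
  | succ k ih =>
    intro N r h hh
    simp only [hit, Bool.or_eq_true, beq_iff_eq] at hh
    rcases hh with hh | hh
    · exact ⟨0, Nat.zero_le _, hh ▸ h⟩
    · obtain ⟨t, ht, h2⟩ := ih (f N) _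
        (((h.mul h).add h).trans (Nat.mod_modEq _ _).symm) hh
      exact ⟨t + 1, by omega, h2⟩

def exc : List ℕ := [0, 426, 1023, 1201, 1202, 1658, 1659, 1837, 2434, 2860]

theorem hit_all : (List.range 2861).all (fun r => exc.contains r || hit 140 r) = true := by
  decide +kernel

theorem f5 {N : ℕ} (h : N % 5 = 1 ∨ N % 5 = 2 ∨ N % 5 = 3) (k : ℕ) :
    f^[k] N % 5 = 1 ∨ f^[k] N % 5 = 2 ∨ f^[k] N % 5 = 3 := by
  induction k with
  | zero => exact h
  | succ k ih =>
    rw [Function.iterate_succ_apply', f]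
    rcases ih with h | h | h <;> simp [Nat.add_mod, Nat.mul_mod, h]

theorem reach {N : ℕ} (h5 : N % 5 = 1 ∨ N % 5 = 2 ∨ N % 5 = 3) (hp : N % 2861 ∉ exc) :
    ∃ t ≤ 260, f^[t] N ≡ cs [MOD big] := by
  have h1 := List.all_eq_true.1 hit_all (N % 2861) (List.mem_range.2 (Nat.mod_lt _ (by norm_num)))
  have h2 : hit 140 (N % 2861) = true := by
    rcases Bool.or_eq_true _ _ ▸ h1 with h | h
    · exact absurd (by simpa using h) hp
    · exact h
  obtain ⟨t, ht, h3⟩ := hit_spec 140 N _ (Nat.mod_modEq _ _).symm h2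
  have h4 : f^[t] N % 2861 = 1430 := h3
  rcases f5 h5 t with h | h | h
  · refine ⟨33 + t, by omega, ?_⟩
    rw [Function.iterate_add_apply]
    exact to_cs (by unfold Nat.ModEq; omega) c1
  · refine ⟨120 + t, by omega, ?_⟩
    rw [Function.iterate_add_apply]
    exact to_cs (by unfold Nat.ModEq; omega) c2
  · refine ⟨33 + t, by omega, ?_⟩
    rw [Function.iterate_add_apply]
    exact to_cs (by unfold Nat.ModEq; omega) c3

/-! ### The excursion `1, 5, 2861, 5, 1` -/

def Good (l : List ℕ) : Prop := IsSol l ∧ l.prod ≡ cs [MOD big]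

def ex (l : List ℕ) : List ℕ := stp 5 1 (stp 2861 5 (stp 5 2861 (stp 1 5 l)))

theorem good_ge {l : List ℕ} (h : Good l) : 2861 ≤ l.prod := by
  have h1 : l.prod % 1023165125 = 488895567 := h.2
  omega

theorem le_stp {l : List ℕ} {D E : ℕ} (h : St (stp D E l) E) : l.prod ≤ (stp D E l).prod := by
  have := h.2.1 ((l.prod + E) / D) (by simp [stp])
  rw [stp_prod]; exact Nat.le_mul_of_pos_right _ (lt_trans one_pos this)

theorem ex_spec {l : List ℕ} (h : Good l) : IsSol (ex l) ∧ (ex l).prod ≡ 11391 [MOD 14305] := by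
  have g0 := good_ge h
  have s0 := (st_one l).2 h.1
  have m1 := stp_mod (D := 1) (E := 5) (m := 1023165125) (r := 488895567) one_pos h.2 (one_dvd _)
  have s1 := st_stp s0 (E := 5) (by norm_num) (by omega) m1.1
  have g1 := le_stp s1
  have n1 : (stp 1 5 l).prod ≡ 783702574 [MOD 5 * 204633025] := by
    rw [stp_prod]; exact m1.2.trans (by decide +kernel)
  have m2 := stp_mod (E := 2861) (by norm_num) n1 (by decide +kernel)
  have s2 := st_stp s1 (E := 2861) (by norm_num) (by omega) m2.1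
  have g2 := le_stp s2
  have n2 : (stp 5 2861 (stp 1 5 l)).prod ≡ 83721438 [MOD 2861 * 71525] := by
    rw [stp_prod]; exact m2.2.trans (by decide +kernel)
  have m3 := stp_mod (E := 5) (by norm_num) n2 (by decide +kernel)
  have s3 := st_stp s2 (E := 5) (by norm_num) (by omega) m3.1
  have g3 := le_stp s3
  have n3 : (stp 2861 5 (stp 5 2861 (stp 1 5 l))).prod ≡ 51094 [MOD 5 * 14305] := by
    rw [stp_prod]; exact m3.2.trans (by decide +kernel)
  have m4 := stp_mod (E := 1) (by norm_num) n3 (by decide +kernel)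
  have s4 := st_stp s3 (E := 1) (by norm_num) (by omega) m4.1
  refine ⟨(st_one _).1 s4, ?_⟩
  rw [ex, stp_prod]; exact m4.2.trans (by decide +kernel)

theorem ex_app (l : List ℕ) : ∃ t : List ℕ, ex l = l ++ (l.prod + 5) :: t ∧ t.length = 3 := by
  simp only [ex, stp, List.append_assoc, List.cons_append, List.nil_append, Nat.div_one]
  exact ⟨_, rfl, rfl⟩

theorem good_I {l : List ℕ} (h : Good l) : ∃ t : List ℕ,
    Good (l ++ (l.prod + 1) :: t) ∧ t.length = 173 := by
  obtain ⟨t, h1, h2⟩ := it_app (syl l) 173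
  have h3 : syl^[174] l = l ++ (l.prod + 1) :: t := by
    rw [Function.iterate_succ_apply, h1, syl]; simp
  refine ⟨t, ?_, h2⟩
  rw [← h3]
  exact ⟨it_sol h.1 _, by rw [it_prod]; exact to_cs h.2 c174⟩

theorem good_B {l : List ℕ} (h : Good l) : ∃ t : List ℕ,
    Good (l ++ (l.prod + 5) :: t) ∧ t.length = 226 := by
  obtain ⟨t, h1, h2⟩ := it_app (ex l) 223
  obtain ⟨u, h4, h5⟩ := ex_app l
  have h3 : syl^[223] (ex l) = l ++ (l.prod + 5) :: (u ++ t) := by
    rw [h1, h4]; simp
  refine ⟨u ++ t, ?_, by simp [h2, h5]⟩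
  rw [← h3]
  exact ⟨it_sol (ex_spec h).1 _, by rw [it_prod]; exact to_cs (ex_spec h).2 c223⟩

/-! ### Counting -/

/-- Extensions of `l` by `n` terms whose product is `2` modulo `5`. -/
def Ex (l : List ℕ) (n : ℕ) : Set (List ℕ) :=
  {m | IsSol m ∧ m.prod % 5 = 2 ∧ ∃ t : List ℕ, m = l ++ t ∧ t.length = n}

theorem ex_fin (l : List ℕ) (n : ℕ) : (Ex l n).Finite := by
  refine (fin_sol (l.length + n)).subset ?_
  rintro m ⟨a, -, t, rfl, rfl⟩
  exact ⟨a, by simp⟩

theorem ex_sub (l t : List ℕ) (n : ℕ) : Ex (l ++ t) n ⊆ Ex l (t.length + n) := by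
  rintro m ⟨a, b, u, rfl, rfl⟩
  exact ⟨a, b, t ++ u, by simp, by simp⟩

theorem f_even {N : ℕ} (h : N % 5 = 2) (j : ℕ) : f^[2 * j] N % 5 = 2 := by
  induction j with
  | zero => exact h
  | succ j ih =>
    rw [show 2 * (j + 1) = 2 * j + 1 + 1 by ring, Function.iterate_succ_apply',
      Function.iterate_succ_apply']
    simp [f, Nat.add_mod, Nat.mul_mod, ih]

theorem ne_even {l : List ℕ} (h : Good l) (j : ℕ) : (Ex l (2 * j)).Nonempty := by
  have h1 : l.prod % 1023165125 = 488895567 := h.2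
  refine ⟨syl^[2 * j] l, it_sol h.1 _, ?_, it_app l _⟩
  rw [it_prod]; exact f_even (by omega) j

theorem ne_all {l : List ℕ} (h : Good l) {n : ℕ} (hn : 226 ≤ n) : (Ex l n).Nonempty := by
  rcases Nat.even_or_odd' n with ⟨j, rfl | rfl⟩
  · exact ne_even h j
  · obtain ⟨t, h1, h2⟩ := good_B h
    have := (ne_even h1 (j - 113)).mono (ex_sub l _ _)
    rwa [show ((l.prod + 5) :: t).length + 2 * (j - 113) = 2 * j + 1 by
      simp only [List.length_cons, h2]; omega] at this

theorem count (n : ℕ) : ∀ l : List ℕ, Good l → 226 ≤ n →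
    2 ^ ((n - 226) / 227) ≤ (Ex l n).ncard := by
  induction n using Nat.strong_induction_on with
  | _ n ih =>
    intro l h hn
    by_cases hc : n < 453
    · rw [show (n - 226) / 227 = 0 by omega, pow_zero]
      exact (Set.ncard_pos (ex_fin l n)).2 (ne_all h hn)
    · obtain ⟨t, h1, h2⟩ := good_I h
      obtain ⟨u, h3, h4⟩ := good_B h
      have a1 := ih (n - 174) (by omega) _ h1 (by omega)
      have a2 := ih (n - 227) (by omega) _ h3 (by omega)
      have b1 := ex_sub l ((l.prod + 1) :: t) (n - 174)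
      have b2 := ex_sub l ((l.prod + 5) :: u) (n - 227)
      rw [show ((l.prod + 1) :: t).length + (n - 174) = n by
        simp only [List.length_cons, h2]; omega] at b1
      rw [show ((l.prod + 5) :: u).length + (n - 227) = n by
        simp only [List.length_cons, h4]; omega] at b2
      have dj : Disjoint (Ex (l ++ (l.prod + 1) :: t) (n - 174))
          (Ex (l ++ (l.prod + 5) :: u) (n - 227)) := by
        rw [Set.disjoint_left]
        rintro m ⟨-, -, v, rfl, -⟩ ⟨-, -, w, e, -⟩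
        simp only [List.append_assoc, List.append_cancel_left_eq, List.cons_append,
          List.cons.injEq] at e
        omega
      have c := Set.ncard_le_ncard (Set.union_subset b1 b2) (ex_fin l n)
      rw [Set.ncard_union_eq dj (ex_fin _ _) (ex_fin _ _)] at c
      have d1 : 2 ^ ((n - 227 - 226) / 227) ≤ 2 ^ ((n - 174 - 226) / 227) :=
        Nat.pow_le_pow_right (by norm_num) (by omega)
      rw [show (n - 226) / 227 = (n - 227 - 226) / 227 + 1 by omega, pow_succ]
      omega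

/-- The branch `1, 5, 1`. -/
def br (l : List ℕ) : List ℕ := stp 5 1 (stp 1 5 l)

theorem br_sol {l : List ℕ} (h : IsSol l) (h5 : l.prod % 5 = 2) (hg : 5 ≤ l.prod) :
    IsSol (br l) := by
  have s0 := (st_one l).2 h
  have s1 := st_stp s0 (E := 5) (by norm_num) hg (one_dvd _)
  have g1 := le_stp s1
  refine (st_one _).1 (st_stp s1 one_pos (by omega) ?_)
  rw [stp_prod, Nat.div_one]
  apply Nat.dvd_of_mod_eq_zero
  simp [Nat.add_mod, Nat.mul_mod, h5]

theorem main (u l : List ℕ) (hl : IsSol (u ++ l))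
    (h5 : (u ++ l).prod % 5 = 1 ∨ (u ++ l).prod % 5 = 2 ∨ (u ++ l).prod % 5 = 3)
    (hp : (u ++ l).prod % 2861 ∉ exc) (s : ℕ) (hs : (u ++ l).length + 487 ≤ s) :
    Omega u s + 2 ^ ((s - (u ++ l).length - 487) / 227) ≤ Omega u (s + 1) := by
  obtain ⟨t, ht, hr⟩ := reach h5 hp
  obtain ⟨v, hv, hvl⟩ := it_app (u ++ l) t
  have hg : Good (u ++ l ++ v) := by
    rw [← hv]; exact ⟨it_sol hl _, by rw [it_prod]; exact hr⟩
  set g := u ++ l ++ v with hgd
  have hgl : g.length = (u ++ l).length + t := by rw [hgd, List.length_append, hvl]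
  set n := s - 1 - g.length with hn
  have hc := count n g hg (by omega)
  have fs : ∀ k, {m : List ℕ | IsSol m ∧ m.length = k ∧ ∃ w : List ℕ, m = u ++ w}.Finite :=
    fun k => (fin_sol k).subset fun m hm => ⟨hm.1, hm.2.1⟩
  have i1 : Function.Injective syl := fun a b e => (List.append_inj' e rfl).1
  have i2 : Function.Injective br := fun a b e =>
    (List.append_inj' (List.append_inj' e rfl).1 rfl).1
  have b1 : syl '' {m : List ℕ | IsSol m ∧ m.length = s ∧ ∃ w : List ℕ, m = u ++ w} ⊆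
      {m : List ℕ | IsSol m ∧ m.length = s + 1 ∧ ∃ w : List ℕ, m = u ++ w} := by
    rintro _ ⟨m, ⟨a, b, w, rfl⟩, rfl⟩
    exact ⟨syl_sol a, by rw [syl, List.length_append, b]; rfl, _, List.append_assoc _ _ _⟩
  have b2 : br '' Ex g n ⊆
      {m : List ℕ | IsSol m ∧ m.length = s + 1 ∧ ∃ w : List ℕ, m = u ++ w} := by
    rintro _ ⟨m, ⟨a, b, w, rfl, e⟩, rfl⟩
    have p1 := good_ge hg
    have p2 : 0 < w.prod := prod_pos' w fun x hx => a.2.1 x (by simp [hx])
    refine ⟨br_sol a b (by rw [List.prod_append]; nlinarith), ?_, ?_⟩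
    · simp only [br, stp, List.length_append, List.length_singleton, e]; omega
    · simp only [br, stp, hgd, List.append_assoc]; exact ⟨_, rfl⟩
  have dj : Disjoint (syl '' {m : List ℕ | IsSol m ∧ m.length = s ∧ ∃ w : List ℕ, m = u ++ w})
      (br '' Ex g n) := by
    rw [Set.disjoint_left]
    rintro _ ⟨m, -, rfl⟩ ⟨m', -, e⟩
    obtain ⟨e1, e2⟩ := List.append_inj' e rfl
    rw [e1] at e2
    simp only [List.cons.injEq, and_true] at e2
    omega
  have c := Set.ncard_le_ncard (Set.union_subset b1 b2) (fs (s + 1))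
  rw [Set.ncard_union_eq dj ((fs s).image _) ((ex_fin _ _).image _),
    Set.ncard_image_of_injective _ i1, Set.ncard_image_of_injective _ i2] at c
  have d1 : 2 ^ ((s - (u ++ l).length - 487) / 227) ≤ 2 ^ ((n - 226) / 227) :=
    Nat.pow_le_pow_right (by norm_num) (by omega)
  unfold Omega
  omega

end Pool.Agent.MP_57c6f5_nt.G
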