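import Pool.Agent.MP_57c6f5_nt.Defs

/-! The length of a solution modulo eight, by reciprocity of the Jacobi symbol. -/

set_option autoImplicit false

namespace Pool.Agent.MP_57c6f5_nt.Mod8

open jacobiSym ZMod
open scoped NumberTheorySymbols

/-- the numerator of the sum of the reciprocals -/
def dA : List ℕ → ℕ
  | [] => 0
  | x :: l => l.prod + x * dA l

lemma sum_eq (l : List ℕ) (h : ∀ x ∈ l, x ≠ 0) :
    (l.map fun x : ℕ => (1 : ℚ) / (x : ℚ)).sum * l.prod = dA l := by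
  induction l with
  | nil => simp [dA]
  | cons x l ih =>
    have hx : (x : ℚ) ≠ 0 := Nat.cast_ne_zero.2 (h x List.mem_cons_self)
    have := ih fun y hy => h y (List.mem_cons_of_mem _ hy)
    rw [List.map_cons, List.sum_cons, List.prod_cons, dA]
    push_cast at this ⊢
    rw [← this]
    field_simp

lemma pm {a : ℤ} {b : ℕ} (h : J(a | b) ≠ 0) : J(a | b) = 1 ∨ J(a | b) = -1 :=
  (trichotomy a b).resolve_left h

lemma odd_prod (l : List ℕ) (h : ∀ x ∈ l, Odd x) : Odd l.prod := by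
  induction l with
  | nil => simp
  | cons x l ih =>
    rw [List.prod_cons]
    exact (h x List.mem_cons_self).mul (ih fun y hy => h y (List.mem_cons_of_mem _ hy))

/-- the Jacobi symbol of numerator over denominator gives the length modulo eight -/
lemma key (l : List ℕ) (h : ∀ x ∈ l, Odd x) (hJ : J(dA l | l.prod) ≠ 0) :
    (8 : ℤ) ∣ dA l * (l.prod : ℕ) - (l.prod : ℕ) - l.length - 1 + 2 * J(dA l | l.prod) := by
  induction l with
  | nil => simp [dA]
  | cons x l ih =>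
    have hx := h x List.mem_cons_self
    have hl := fun y hy => h y (List.mem_cons_of_mem x hy)
    have hM := odd_prod l hl
    rw [List.prod_cons, dA] at hJ ⊢
    rw [List.length_cons]
    generalize l.prod = M at *
    generalize dA l = A at *
    have e : J(((M + x * A : ℕ) : ℤ) | x * M) = J(M | x) * J(x | M) * J(A | M) := by
      rw [mul_right' _ hx.pos.ne' hM.pos.ne', mul_assoc, ← mul_left]
      congr 1 <;> refine mod_left' ?_ <;> push_cast <;> simp
    rw [e] at hJ ⊢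
    have h3 := right_ne_zero_of_mul hJ
    have h2 := pm (right_ne_zero_of_mul (left_ne_zero_of_mul hJ))
    have r := quadratic_reciprocity_if (Nat.odd_iff.1 hM) (Nat.odd_iff.1 hx)
    obtain ⟨p, hp⟩ := Int.eight_dvd_sq_sub_one_of_odd (k := x) (by exact_mod_cast hx)
    obtain ⟨q, hq⟩ := Int.eight_dvd_sq_sub_one_of_odd (k := M) (by exact_mod_cast hM)
    obtain ⟨t, ht⟩ := ih hl h3
    have e2 : ((M + x * A : ℕ) : ℤ) * ((x * M : ℕ) : ℤ) - ((x * M : ℕ) : ℤ) -
        ((l.length + 1 : ℕ) : ℤ) - 1 =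
        8 * (x * q + p * A * M + t) - ((x : ℤ) - 1) * (M - 1) - 2 * J(A | M) := by
      push_cast
      linear_combination x * hq + A * M * hp + ht
    rw [e2, ← r]
    split_ifs with c
    · obtain ⟨a, ha⟩ : ∃ a : ℤ, (x : ℤ) - 1 = 4 * a + 2 := ⟨x / 4, by omega⟩
      obtain ⟨b, hb⟩ : ∃ b : ℤ, (M : ℤ) - 1 = 4 * b + 2 := ⟨M / 4, by omega⟩
      rw [ha, hb, show (4 * a + 2) * (4 * b + 2) = 8 * (2 * (a * b) + a + b) + 4 by ring]
      rcases h2 with h2 | h2 <;> rcases pm h3 with h3 | h3 <;> rw [h2, h3] <;> omega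
    · have d : (8 : ℤ) ∣ ((x : ℤ) - 1) * (M - 1) := by
        have o1 := Nat.odd_iff.1 hx
        have o2 := Nat.odd_iff.1 hM
        by_cases c1 : x % 4 = 1
        · exact mul_dvd_mul (by omega : (4 : ℤ) ∣ x - 1) (by omega : (2 : ℤ) ∣ M - 1)
        · exact mul_dvd_mul (by omega : (2 : ℤ) ∣ x - 1) (by omega : (4 : ℤ) ∣ M - 1)
      rcases h2 with h2 | h2 <;> rcases pm h3 with h3 | h3 <;> rw [h2, h3] <;> omega

lemma chi4 {n : ℕ} (h : n % 2 = 1) : (n % 4 = 1 ∧ J(-1 | n) = 1) ∨ (n % 4 = 3 ∧ J(-1 | n) = -1) := by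
  rw [at_neg_one (Nat.odd_iff.2 h)]
  exact (Nat.odd_mod_four_iff.1 h).imp (fun h => ⟨h, χ₄_nat_one_mod_four h⟩)
    fun h => ⟨h, χ₄_nat_three_mod_four h⟩

/-- the symbol of an odd divisor of `M + 1` -/
lemma sym_odd {m M v : ℕ} (hm : m % 2 = 1) (hM : M % 2 = 1) (e : M + 1 = m * v) :
    J(m | M) = if m % 4 = 3 ∧ M % 4 = 1 then -1 else 1 := by
  have e1 : J(M | m) = J(-1 | m) := mod_left' (by
    rw [show (M : ℤ) = -1 + m * v by exact_mod_cast (by omega : (M : ℤ) = -1 + (m * v : ℕ))]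
    simp)
  rw [← quadratic_reciprocity_if hm hM, e1]
  rcases chi4 hm with h | h <;> rw [h.2] <;> split_ifs <;> omega

/-- the symbol of an even divisor of `M + 1` -/
lemma sym_even {c M w : ℕ} {j : ℤ} (hc : Even c) (e : M + 1 = c * w)
    (hj : J(c | M) * j = J(-1 | M)) :
    (8 : ℤ) ∣ 2 * j + 2 - (c : ℤ) * w * (w + 1) := by
  obtain ⟨k, m, hm, rfl⟩ := Nat.exists_eq_two_pow_mul_odd (n := c) (by rintro rfl; omega)
  have hm := Nat.odd_iff.1 hm
  obtain _ | k := k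
  · rw [Nat.even_iff] at hc
    omega
  have hM : M % 2 = 1 := by
    rw [pow_succ', mul_assoc, mul_assoc] at e
    omega
  have s1 := sym_odd (v := 2 ^ (k + 1) * w) hm hM (by rw [e]; ring)
  have s2 := (at_two (Nat.odd_iff.2 hM)).trans (χ₈_nat_eq_if_mod_eight M)
  have s3 := chi4 hM
  obtain ⟨u, hu⟩ := Int.even_mul_succ_self (w : ℤ)
  push_cast at hj ⊢
  rw [mul_left, pow_left, s1, s2] at hj
  obtain _ | k := k
  · obtain ⟨a, ha⟩ : ∃ a, m = 2 * a + 1 := ⟨m / 2, by omega⟩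
    have e1 : (2 : ℤ) ^ (0 + 1) * m * w * (w + 1) = 8 * (a * u) + 4 * u := by
      rw [mul_assoc _ (w : ℤ), hu, ha]
      push_cast
      ring
    have e2 : (m * w) % 4 = (m % 4 * (w % 4)) % 4 := Nat.mul_mod _ _ _
    have e3 : ((w : ℤ) * (w + 1)) % 4 = (w % 4 * ((w + 1) % 4)) % 4 := Int.mul_emod _ _ _
    rw [zero_add, pow_one, mul_assoc] at e
    rw [e1]
    have c1 : m % 4 = 1 ∨ m % 4 = 3 := by omega
    have c2 : (w % 4 = 0 ∧ (w : ℤ) % 4 = 0 ∧ ((w : ℤ) + 1) % 4 = 1) ∨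
        (w % 4 = 1 ∧ (w : ℤ) % 4 = 1 ∧ ((w : ℤ) + 1) % 4 = 2) ∨
        (w % 4 = 2 ∧ (w : ℤ) % 4 = 2 ∧ ((w : ℤ) + 1) % 4 = 3) ∨
        (w % 4 = 3 ∧ (w : ℤ) % 4 = 3 ∧ ((w : ℤ) + 1) % 4 = 0) := by omega
    rw [hu] at e3
    rcases c1 with c1 | c1 <;> rcases c2 with c2 | c2 | c2 | c2 <;> rw [c1, c2.1] at e2 <;>
      rw [c2.2.1, c2.2.2] at e3 <;> split_ifs at hj <;> omega
  · have e1 : (2 : ℤ) ^ (k + 1 + 1) * m * w * (w + 1) = 8 * (2 ^ k * m * u) := by
      rw [mul_assoc _ (w : ℤ), hu]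
      ring
    have e2 : M + 1 = 4 * (2 ^ k * m * w) := by rw [e]; ring
    rw [e1]
    rw [if_neg (by omega : ¬ M % 2 = 0), if_neg (by omega : ¬ (m % 4 = 3 ∧ M % 4 = 1))] at hj
    obtain _ | k := k
    · split_ifs at hj <;> omega
    · have e3 : M + 1 = 8 * (2 ^ k * m * w) := by rw [e]; ring
      rw [if_pos (by omega : M % 8 = 1 ∨ M % 8 = 7), one_pow] at hj
      omega

lemma eqn {l : List ℕ} (h0 : ∀ x ∈ l, 1 < x)
    (h : (l.map fun x : ℕ => (1 : ℚ) / (x : ℚ)).sum + 1 / ((l.prod : ℕ) : ℚ) = 1) :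
    dA l + 1 = l.prod := by
  have h1 : ∀ x ∈ l, x ≠ 0 := fun x hx => by have := h0 x hx; omega
  have h2 : ((l.prod : ℕ) : ℚ) ≠ 0 :=
    Nat.cast_ne_zero.2 (List.prod_ne_zero fun hz => h1 0 hz rfl)
  have h3 := congrArg (· * ((l.prod : ℕ) : ℚ)) h
  simp only [add_mul, sum_eq l h1, one_div_mul_cancel h2, one_mul] at h3
  exact_mod_cast h3

theorem all_odd {l : List ℕ} (h : IsSol l) (ho : ∀ x ∈ l, Odd x) : 8 ∣ l.length := by
  have e := eqn h.2.1 h.2.2
  have hM := odd_prod l ho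
  have e1 : J(dA l | l.prod) = J(-1 | l.prod) := mod_left' (by
    rw [show (dA l : ℤ) = -1 + (l.prod : ℕ) by omega]
    simp)
  have c := chi4 (Nat.odd_iff.1 hM)
  have k := key l ho (by rw [e1]; omega)
  obtain ⟨q, hq⟩ := Int.eight_dvd_sq_sub_one_of_odd (k := (l.prod : ℕ)) (by exact_mod_cast hM)
  rw [e1, show (dA l : ℤ) * (l.prod : ℕ) = 8 * q + 1 - (l.prod : ℕ) by
    rw [show (dA l : ℤ) = -1 + (l.prod : ℕ) by omega]; linear_combination hq] at k
  omega

lemma core {r : List ℕ} {c : ℕ} (c1 : 1 < c) (he : Even c) (e : dA (c :: r) + 1 = (c :: r).prod) :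
    (∀ x ∈ r, Odd x) ∧ ∃ w : ℕ, r.prod + 1 = c * w ∧ ∃ k : ℤ, (r.length : ℤ) + 1 = w + 8 * k := by
  rw [dA, List.prod_cons] at e
  have hA : dA r ≤ r.prod := Nat.le_of_mul_le_mul_left (by omega) (by omega : 0 < c)
  obtain ⟨w, hw⟩ := Nat.exists_eq_add_of_le hA
  have e1 : r.prod + 1 = c * w := by
    have : c * r.prod = c * dA r + c * w := by rw [← mul_add, ← hw]
    omega
  have hM : Odd r.prod := by
    have := Nat.even_iff.1 (he.mul_right w)
    exact Nat.odd_iff.2 (by omega)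
  have e2 : J(c | r.prod) * J(dA r | r.prod) = J(-1 | r.prod) := by
    rw [← mul_left]
    refine mod_left' ?_
    rw [show (c : ℤ) * dA r = -1 + (r.prod : ℕ) * (c - 1) by
      have : ((r.prod + c * dA r + 1 : ℕ) : ℤ) = (c * r.prod : ℕ) := by rw [e]
      push_cast [-Nat.cast_list_prod] at this
      linear_combination this]
    simp
  have hJ : J(dA r | r.prod) ≠ 0 := fun hz => by
    have := chi4 (Nat.odd_iff.1 hM)
    rw [hz, mul_zero] at e2
    omega
  have ho : ∀ x ∈ r, Odd x := fun x hx => hM.of_dvd_nat (List.dvd_prod hx)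
  obtain ⟨a, ha⟩ := key r ho hJ
  obtain ⟨b, hb⟩ := sym_even he e1 e2
  obtain ⟨q, hq⟩ := Int.eight_dvd_sq_sub_one_of_odd (k := (r.prod : ℕ)) (by exact_mod_cast hM)
  have e3 : ((r.prod : ℕ) : ℤ) + 1 = c * w := by exact_mod_cast e1
  have e4 : ((r.prod : ℕ) : ℤ) = dA r + w := by exact_mod_cast hw
  refine ⟨ho, w, e1, q + b - a, ?_⟩
  linear_combination hq + hb - ha - (r.prod : ℕ) * e4 - (w + 1) * e3

lemma eqn_perm {l r : List ℕ} (h : IsSol l) (p : l.Perm r) : dA r + 1 = r.prod :=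
  eqn (fun x hx => h.2.1 x (p.mem_iff.2 hx))
    (by rw [← p.prod_eq, ← (p.map _).sum_eq]; exact h.2.2)

theorem main {l : List ℕ} (h : IsSol l) : ∃ k : ℤ, (l.length : ℚ) =
    ((l.filter fun c => Even c).map fun c : ℕ => ((l.prod : ℕ) + c : ℚ) / (c : ℚ) ^ 2).sum +
      8 * k := by
  have nil : ∀ r : List ℕ, (∀ x ∈ r, Odd x) → (r.filter fun c => Even c) = [] := fun r hr =>
    List.filter_eq_nil_iff.2 fun x hx => by simpa using hr x hx
  by_cases ho : ∀ x ∈ l, Odd x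
  · obtain ⟨k, hk⟩ := all_odd h ho
    exact ⟨k, by simp [nil l ho, hk]⟩
  · simp only [not_forall, Nat.not_odd_iff_even] at ho
    obtain ⟨c, hc, he⟩ := ho
    have p := List.perm_cons_erase hc
    have c1 := h.2.1 c hc
    obtain ⟨h1, w, h2, k, h3⟩ := core c1 he (eqn_perm h p)
    refine ⟨k, ?_⟩
    rw [((p.filter _).map _).sum_eq, List.filter_cons_of_pos (by simpa using he), nil _ h1,
      p.length_eq, p.prod_eq, List.prod_cons, List.length_cons]
    generalize (l.erase c).prod = M at *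
    have e1 : (M : ℚ) + 1 = c * w := by exact_mod_cast h2
    have e2 : ((l.erase c).length : ℚ) + 1 = w + 8 * k := by exact_mod_cast h3
    have e3 : (c : ℚ) ≠ 0 := by positivity
    have e4 : ((c * M : ℕ) + c : ℚ) / (c : ℚ) ^ 2 = w := by
      rw [div_eq_iff (pow_ne_zero 2 e3)]
      push_cast
      linear_combination c * e1
    simp only [List.map_cons, List.map_nil, List.sum_cons, List.sum_nil, add_zero, e4]
    exact_mod_cast e2

/-- the congruence modulo `288` for solutions that contain `2` and `3` -/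
theorem mod288 {l : List ℕ} (h : IsSol l) (h2 : 2 ∈ l) (h3 : 3 ∈ l) :
    l.prod + 66 ≡ 36 * l.length [MOD 288] := by
  have p := List.perm_cons_erase h2
  obtain ⟨-, w, a1, k, a2⟩ := core one_lt_two even_two (eqn_perm h p)
  have a3 := p.prod_eq
  have a4 := p.length_eq
  have q := List.perm_cons_erase h3
  have e := eqn_perm h q
  have e1 := q.prod_eq
  rw [dA, List.prod_cons] at e
  rw [List.prod_cons] at e1 a3
  rw [List.length_cons] at a4
  unfold Nat.ModEq
  omega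

end Pool.Agent.MP_57c6f5_nt.Mod8
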